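import Pool.Agent.Helper62.LH.StA

/-!
# Project LH (MP_087a81_gt), module CVX: fast growing smooth convex functions
-/

set_option autoImplicit false

open Set Filter Topology MeasureTheory
open scoped ContDiff

noncomputable section

namespace Pool.Agent.Helper29.LH

open Helper62.LH

/-- the derivative -/
def Gc (R : ℝ) (a : ℕ → ℝ) (s : ℝ) : ℝ :=
  ∑ j ∈ Finset.range (⌊s - R⌋₊ + 1), a j * Real.smoothTransition (s - (R + j))

theorem Gc_eq (R : ℝ) (a : ℕ → ℝ) (m : ℕ) (s : ℝ) (hs : s < R + m) :
    Gc R a s = ∑ j ∈ Finset.range m, a j * Real.smoothTransition (s - (R + j)) := by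
  have hk : s < R + (⌊s - R⌋₊ + 1 : ℕ) := by
    have := Nat.lt_floor_add_one (s - R)
    push_cast
    linarith
  have hz : ∀ k : ℕ, s < R + k → ∀ j : ℕ, j ∉ Finset.range k →
      a j * Real.smoothTransition (s - (R + j)) = 0 := by
    intro k hk j hj
    rw [Finset.mem_range, not_lt] at hj
    have : (k : ℝ) ≤ j := by exact_mod_cast hj
    rw [Real.smoothTransition.zero_of_nonpos (by linarith), mul_zero]
  unfold Gc
  rcases le_total (⌊s - R⌋₊ + 1) m with h | h
  · exact Finset.sum_subset (Finset.range_mono h) fun j _ hj => hz _ hk j hj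
  · exact (Finset.sum_subset (Finset.range_mono h) fun j _ hj => hz _ hs j hj).symm

theorem Gc_smooth (R : ℝ) (a : ℕ → ℝ) : ContDiff ℝ ∞ (Gc R a) := by
  rw [contDiff_iff_contDiffAt]
  intro s
  obtain ⟨m, hm⟩ := exists_nat_gt (s - R)
  have h1 : ContDiff ℝ ∞ fun s => ∑ j ∈ Finset.range m,
      a j * Real.smoothTransition (s - (R + j)) := by
    refine ContDiff.sum fun j _ => contDiff_const.mul ?_
    exact Real.smoothTransition.contDiff.comp (contDiff_id.sub contDiff_const)
  refine h1.contDiffAt.congr_of_eventuallyEq ?_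
  have h2 : ∀ᶠ s' in 𝓝 s, s' < R + m := gt_mem_nhds (by linarith)
  filter_upwards [h2] with s' hs'
  exact Gc_eq R a m s' hs'

/-- CVX. -/
theorem hCvx : StCvx := by
  intro R A
  have hη : 0 < ∫ t in (0 : ℝ)..1, Real.smoothTransition t :=
    intervalIntegral.intervalIntegral_pos_of_pos_on
      (Real.smoothTransition.continuous.intervalIntegrable _ _)
      (fun x hx => Real.smoothTransition.pos_of_pos hx.1) zero_lt_one
  set η : ℝ := ∫ t in (0 : ℝ)..1, Real.smoothTransition t with hηdef
  set a : ℕ → ℝ := fun j => max (A j) 0 / η with ha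
  have ha0 : ∀ j, 0 ≤ a j := fun j => div_nonneg (le_max_right _ _) hη.le
  have hsm := Gc_smooth R a
  have hc : Continuous (Gc R a) := hsm.continuous
  have hG0 : ∀ s, 0 ≤ Gc R a s := fun s =>
    Finset.sum_nonneg fun j _ => mul_nonneg (ha0 j) (Real.smoothTransition.nonneg _)
  have hGR : ∀ s ≤ R, Gc R a s = 0 := by
    intro s hs
    refine Finset.sum_eq_zero fun j _ => ?_
    have : (0 : ℝ) ≤ j := Nat.cast_nonneg j
    rw [Real.smoothTransition.zero_of_nonpos (by linarith), mul_zero]
  have hGm : Monotone (Gc R a) := by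
    intro s s' hs
    obtain ⟨m, hm⟩ := exists_nat_gt (s' - R)
    rw [Gc_eq R a m s (by linarith), Gc_eq R a m s' (by linarith)]
    refine Finset.sum_le_sum fun j _ => mul_le_mul_of_nonneg_left ?_ (ha0 j)
    exact Real.smoothTransition.monotone (by linarith)
  have hGj : ∀ (j : ℕ) (s : ℝ), a j * Real.smoothTransition (s - (R + j)) ≤ Gc R a s := by
    intro j s
    obtain ⟨m, hm⟩ := exists_nat_gt (max (s - R) j)
    have h1 : s - R < m := lt_of_le_of_lt (le_max_left _ _) hm
    have h2 : (j : ℝ) < m := lt_of_le_of_lt (le_max_right _ _) hm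
    rw [Gc_eq R a m s (by linarith)]
    exact Finset.single_le_sum (f := fun j : ℕ => a j * Real.smoothTransition (s - (R + j)))
      (fun j _ => mul_nonneg (ha0 j) (Real.smoothTransition.nonneg _))
      (Finset.mem_range.2 (by exact_mod_cast h2))
  set F : ℝ → ℝ := fun s => ∫ t in R..s, Gc R a t with hF
  have hder : ∀ s, HasDerivAt F (Gc R a s) s := fun s =>
    (hc.integral_hasStrictDerivAt R s).hasDerivAt
  have hd : deriv F = Gc R a := funext fun s => (hder s).deriv
  have hFm : Monotone F :=
    monotone_of_deriv_nonneg (fun s => (hder s).differentiableAt) (fun s => by rw [hd]; exact hG0 s)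
  have hFR : ∀ s ≤ R, F s = 0 := by
    intro s hs
    simp only [hF]
    rw [intervalIntegral.integral_symm, neg_eq_zero]
    refine intervalIntegral.integral_zero_ae (Filter.Eventually.of_forall fun t ht => ?_)
    rw [uIoc_of_le hs] at ht
    exact hGR t ht.2
  refine ⟨F, ?_, ?_, hFR, hFm, ?_, ?_, ?_, ?_⟩
  · rw [contDiff_infty_iff_deriv]
    exact ⟨fun s => (hder s).differentiableAt, by rw [hd]; exact hsm⟩
  · intro s
    rcases le_total s R with h | h
    · rw [hFR s h]
    · rw [← hFR R le_rfl]
      exact hFm h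
  · rw [hd]
    exact hGm
  · intro s
    rw [hd]
    exact hG0 s
  · intro s
    rw [hd]
    exact hGm.deriv_nonneg
  · intro j
    have hj : (0 : ℝ) ≤ j := Nat.cast_nonneg j
    have h1 : ∫ t in (R + j)..(R + 1 + j), Gc R a t ≤ F (R + 1 + j) := by
      refine intervalIntegral.integral_mono_interval (by linarith) (by linarith) le_rfl
        (Filter.Eventually.of_forall fun t => hG0 t) (hc.intervalIntegrable _ _)
    have h2 : ∫ t in (R + j)..(R + 1 + j), a j * Real.smoothTransition (t - (R + j)) ≤
        ∫ t in (R + j)..(R + 1 + j), Gc R a t := by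
      refine intervalIntegral.integral_mono_on (by linarith) ?_ (hc.intervalIntegrable _ _)
        (fun t _ => hGj j t)
      have : Continuous fun t : ℝ => a j * Real.smoothTransition (t - (R + j)) :=
        continuous_const.mul (Real.smoothTransition.continuous.comp (by fun_prop))
      exact this.intervalIntegrable _ _
    have h3 : ∫ t in (R + j)..(R + 1 + j), a j * Real.smoothTransition (t - (R + j)) =
        max (A j) 0 := by
      rw [intervalIntegral.integral_const_mul,
        intervalIntegral.integral_comp_sub_right (fun t => Real.smoothTransition t) (R + j),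
        sub_self, show R + 1 + (j : ℝ) - (R + j) = 1 by ring, ← hηdef, ha]
      field_simp
    calc A j ≤ max (A j) 0 := le_max_left _ _
      _ ≤ F (R + 1 + j) := by rw [← h3]; exact h2.trans h1

end Pool.Agent.Helper29.LH
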