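import Pool.Agent.Helper62.LH.StG

/-!
# Project LH (MP_087a81_gt), module LOD: linear differential equations on `[0,1]`
-/

set_option autoImplicit false

open Set Filter Topology MeasureTheory

noncomputable section

namespace Pool.Agent.Helper29.LH

open Helper62.LH

/-- the radial retraction to the ball of radius `R` -/
def lod_rho {E : Type} [NormedAddCommGroup E] [NormedSpace ℝ E] (R : ℝ) (y : E) : E :=
  (R / max R ‖y‖) • y

theorem lod_rho_lip {E : Type} [NormedAddCommGroup E] [NormedSpace ℝ E] {R : ℝ}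
    (hR : 0 < R) (x y : E) : ‖lod_rho R x - lod_rho R y‖ ≤ 2 * ‖x - y‖ := by
  have hx : 0 < max R ‖x‖ := lt_max_of_lt_left hR
  have hy : 0 < max R ‖y‖ := lt_max_of_lt_left hR
  have h1 : lod_rho R x - lod_rho R y =
      (R / max R ‖x‖) • (x - y) + (R / max R ‖x‖ - R / max R ‖y‖) • y := by
    unfold lod_rho
    rw [smul_sub, sub_smul]
    abel
  rw [h1]
  refine (norm_add_le _ _).trans ?_
  have h2 : ‖(R / max R ‖x‖) • (x - y)‖ ≤ ‖x - y‖ := by
    rw [norm_smul, Real.norm_eq_abs, abs_of_pos (div_pos hR hx)]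
    have : R / max R ‖x‖ ≤ 1 := (div_le_one hx).2 (le_max_left _ _)
    nlinarith [norm_nonneg (x - y)]
  have h3 : ‖(R / max R ‖x‖ - R / max R ‖y‖) • y‖ ≤ ‖x - y‖ := by
    rw [norm_smul, Real.norm_eq_abs]
    have h4 : R / max R ‖x‖ - R / max R ‖y‖ =
        R / max R ‖x‖ * ((max R ‖y‖ - max R ‖x‖) / max R ‖y‖) := by
      field_simp
    rw [h4, abs_mul, abs_of_pos (div_pos hR hx), abs_div, abs_of_pos hy]
    have h5 : |max R ‖y‖ - max R ‖x‖| ≤ ‖x - y‖ := by
      have h6 : |max R ‖y‖ - max R ‖x‖| ≤ |‖y‖ - ‖x‖| := by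
        have := abs_max_sub_max_le_abs ‖y‖ ‖x‖ R
        rwa [max_comm ‖y‖ R, max_comm ‖x‖ R] at this
      refine h6.trans ?_
      rw [norm_sub_rev]
      exact abs_norm_sub_norm_le y x
    have h6 : R / max R ‖x‖ ≤ 1 := (div_le_one hx).2 (le_max_left _ _)
    have h7 : ‖y‖ / max R ‖y‖ ≤ 1 := (div_le_one hy).2 (le_max_right _ _)
    have h8 : 0 ≤ R / max R ‖x‖ := (div_pos hR hx).le
    have h9 : 0 ≤ ‖y‖ / max R ‖y‖ := div_nonneg (norm_nonneg _) hy.le
    calc R / max R ‖x‖ * (|max R ‖y‖ - max R ‖x‖| / max R ‖y‖) * ‖y‖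
        = (R / max R ‖x‖) * (‖y‖ / max R ‖y‖) * |max R ‖y‖ - max R ‖x‖| := by ring
      _ ≤ 1 * 1 * ‖x - y‖ := by gcongr
      _ = ‖x - y‖ := by ring
  linarith

theorem lod_rho_norm {E : Type} [NormedAddCommGroup E] [NormedSpace ℝ E] {R : ℝ}
    (hR : 0 < R) (y : E) : ‖lod_rho R y‖ ≤ R ∧ ‖lod_rho R y‖ ≤ ‖y‖ := by
  have hy : 0 < max R ‖y‖ := lt_max_of_lt_left hR
  unfold lod_rho
  rw [norm_smul, Real.norm_eq_abs, abs_of_pos (div_pos hR hy)]
  constructor
  · rw [div_mul_eq_mul_div, div_le_iff₀ hy]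
    exact mul_le_mul_of_nonneg_left (le_max_right _ _) hR.le
  · have : R / max R ‖y‖ ≤ 1 := (div_le_one hy).2 (le_max_left _ _)
    nlinarith [norm_nonneg y]

/-- global existence for fields of linear growth -/
theorem lod_global {E : Type} [NormedAddCommGroup E] [NormedSpace ℝ E] [CompleteSpace E]
    {a b : ℝ} (hab : a ≤ b) (F : ℝ → E → E) {K : ℝ} (hK0 : 0 ≤ K)
    (hF0 : ∀ t ∈ Icc a b, ∀ y, ‖F t y‖ ≤ K * ‖y‖)
    (hFL : ∀ t ∈ Icc a b, ∀ x y, ‖F t x - F t y‖ ≤ K * ‖x - y‖)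
    (hFc : ∀ y, ContinuousOn (fun t => F t y) (Icc a b)) (x0 : E) :
    ∃ y : ℝ → E, y a = x0 ∧ (∀ t ∈ Icc a b, HasDerivWithinAt y (F t (y t)) (Icc a b) t) ∧
      ∀ t ∈ Icc a b, ‖y t‖ ≤ ‖x0‖ * Real.exp (K * (t - a)) := by
  set R : ℝ := ‖x0‖ * Real.exp (K * (b - a)) + 1 with hR
  have hRpos : 0 < R := by positivity
  have h0 : a ∈ Icc a b := ⟨le_rfl, hab⟩
  have hPL : IsPicardLindelof (fun t y => F t (lod_rho R y)) (⟨a, h0⟩ : Icc a b) x0
      (K * R * (b - a)).toNNReal 0 (K * R).toNNReal (K * 2).toNNReal := by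
    refine ⟨fun t ht => ?_, fun x _ => ?_, fun t ht x _ => ?_, ?_⟩
    · refine LipschitzOnWith.of_dist_le_mul fun x _ y _ => ?_
      rw [dist_eq_norm, dist_eq_norm, Real.coe_toNNReal _ (by positivity)]
      refine (hFL t ht _ _).trans ?_
      have := mul_le_mul_of_nonneg_left (lod_rho_lip hRpos x y) hK0
      linarith
    · exact hFc _
    · rw [Real.coe_toNNReal _ (by positivity)]
      refine (hF0 t ht _).trans ?_
      exact mul_le_mul_of_nonneg_left (lod_rho_norm hRpos x).1 hK0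
    · have h1 : max (b - a) (a - a) = b - a := by
        rw [sub_self]; exact max_eq_left (by linarith)
      show ((K * R).toNNReal : ℝ) * max (b - a) (a - a) ≤
        ((K * R * (b - a)).toNNReal : ℝ) - ((0 : NNReal) : ℝ)
      have h2 : 0 ≤ b - a := by linarith
      rw [h1, Real.coe_toNNReal _ (by positivity), Real.coe_toNNReal _ (by positivity)]
      simp
  obtain ⟨y, hya, hy⟩ := hPL.exists_eq_forall_mem_Icc_hasDerivWithinAt₀
  have hya' : y a = x0 := hya
  have hyc : ContinuousOn y (Icc a b) := fun t ht => (hy t ht).continuousWithinAt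
  have hb : ∀ t ∈ Icc a b, ‖y t‖ ≤ ‖x0‖ * Real.exp (K * (t - a)) := by
    intro t ht
    have h1 := norm_le_gronwallBound_of_norm_deriv_right_le (f := y)
      (f' := fun t => F t (lod_rho R (y t))) (δ := ‖x0‖) (K := K) (ε := 0) (a := a) (b := b) hyc
      (fun t ht => (hy t (Ico_subset_Icc_self ht)).mono_of_mem_nhdsWithin
        (Icc_mem_nhdsGE_of_mem ht)) (by rw [hya'])
      (fun t ht => by
        rw [add_zero]
        refine (hF0 t (Ico_subset_Icc_self ht) _).trans ?_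
        exact mul_le_mul_of_nonneg_left (lod_rho_norm hRpos _).2 hK0) t ht
    rwa [gronwallBound_ε0] at h1
  refine ⟨y, hya', fun t ht => ?_, hb⟩
  have h1 : ‖y t‖ ≤ R := by
    refine (hb t ht).trans ?_
    have h2 : Real.exp (K * (t - a)) ≤ Real.exp (K * (b - a)) :=
      Real.exp_le_exp.2 (mul_le_mul_of_nonneg_left (by linarith [ht.2]) hK0)
    have := mul_le_mul_of_nonneg_left h2 (norm_nonneg x0)
    linarith
  have h2 : lod_rho R (y t) = y t := by
    unfold lod_rho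
    rw [max_eq_left h1, div_self hRpos.ne', one_smul]
  have h3 := hy t ht
  rwa [h2] at h3

/-- LOD. -/
theorem hLod : StLod := by
  intro n A v₀ hA
  obtain ⟨K, hK⟩ := isCompact_Icc.exists_bound_of_continuousOn hA
  have hK0 : 0 ≤ K := (norm_nonneg _).trans (hK 0 ⟨le_rfl, zero_le_one⟩)
  have hm : ∀ t ∈ Icc (0 : ℝ) 1, 1 - t ∈ Icc (0 : ℝ) 1 := fun t ht =>
    ⟨by linarith [ht.2], by linarith [ht.1]⟩
  obtain ⟨W, hW0, hW, -⟩ := lod_global (zero_le_one : (0 : ℝ) ≤ 1)
    (fun t y => -(A (1 - t) y)) hK0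
    (fun t ht y => by
      rw [norm_neg]
      exact (A (1 - t)).le_of_opNorm_le (hK _ (hm t ht)) y)
    (fun t ht x y => by
      rw [← neg_sub_neg, neg_neg, neg_neg, ← map_sub, ← norm_neg, ← map_neg, neg_sub]
      exact (A (1 - t)).le_of_opNorm_le (hK _ (hm t ht)) _)
    (fun y => by
      refine ContinuousOn.neg ?_
      have h1 : ContinuousOn (fun t => A (1 - t)) (Icc (0 : ℝ) 1) :=
        hA.comp (by fun_prop) hm
      exact h1.clm_apply continuousOn_const) v₀
  refine ⟨fun t => W (1 - t), ?_, ?_⟩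
  · simp only [sub_self]
    exact hW0
  · intro t ht
    have h1 := hW (1 - t) (hm t ht)
    have h2 : HasDerivWithinAt (fun t : ℝ => 1 - t) (-1) (Icc 0 1) t :=
      ((hasDerivAt_id t).const_sub 1).hasDerivWithinAt
    have h3 := HasDerivWithinAt.scomp t h1 h2 hm
    simp only [sub_sub_cancel, neg_smul, one_smul, neg_neg] at h3
    exact h3

end Pool.Agent.Helper29.LH
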