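import Pool.Agent.Helper62.LH.StA

/-!
# Project LH (MP_087a81_gt), module PAI: integration by parts
-/

set_option autoImplicit false

open Set Filter Topology MeasureTheory
open scoped ContDiff

noncomputable section

namespace Pool.Agent.Helper29.LH

open Helper62.LH

theorem pai_int {n : ℕ} (h : E n → ℝ) (hh : ContDiff ℝ 1 h) (hc : HasCompactSupport h) (v : E n) :
    ∫ x, fderiv ℝ h x v = 0 := by
  have hD : Integrable (fun x => fderiv ℝ h x v) :=
    Continuous.integrable_of_hasCompactSupport
      ((hh.continuous_fderiv one_ne_zero).clm_apply continuous_const) (hc.fderiv_apply (𝕜 := ℝ) v)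
  have hI : Integrable h := hh.continuous.integrable_of_hasCompactSupport hc
  have h1 := integral_mul_fderiv_eq_neg_fderiv_mul_of_integrable (μ := (volume : Measure (E n)))
    (f := fun _ => (1 : ℝ)) (g := h) (v := v) (by simp) (by simpa using hD) (by simpa using hI)
    (fun x _ => differentiableAt_const _) (fun x _ => hh.differentiable one_ne_zero x)
  simpa using h1

theorem gi_symm {n : ℕ} {g : E n → Bl n} (hg : IsMet g) (x : E n) (i j : Fin n) :
    gi g x i j = gi g x j i := by
  have h1 : (gm g x).transpose = gm g x := by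
    ext a b
    simp only [Matrix.transpose_apply, gm, Matrix.of_apply]
    exact hg.symm x _ _
  have h2 : (gi g x).transpose = gi g x := by
    unfold gi
    rw [Matrix.transpose_nonsing_inv, h1]
  have h3 := congrFun (congrFun h2 j) i
  rw [Matrix.transpose_apply] at h3
  exact h3

theorem iB_eq {n : ℕ} {g : E n → Bl n} (hg : IsMet g) (P : E n → Bl n) (x : E n)
    (C : E n → E n → ℝ) :
    iB g x (fun u v => P x u v) C = ∑ a, ∑ b, up g P x a b * C (ee a) (ee b) := by
  unfold iB trg up
  calc ∑ i, ∑ a, gi g x i a * ∑ j, ∑ b, gi g x j b * (P x (ee i) (ee j) * C (ee a) (ee b))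
      = ∑ a, ∑ i, ∑ b, ∑ j, gi g x a i * gi g x b j * P x (ee i) (ee j) * C (ee a) (ee b) := by
        rw [Finset.sum_comm]
        refine Finset.sum_congr rfl fun a _ => Finset.sum_congr rfl fun i _ => ?_
        rw [Finset.sum_comm, Finset.mul_sum]
        refine Finset.sum_congr rfl fun b _ => ?_
        rw [Finset.mul_sum]
        refine Finset.sum_congr rfl fun j _ => ?_
        rw [gi_symm hg x i a, gi_symm hg x j b]
        ring
    _ = ∑ a, ∑ b, ∑ i, ∑ j, gi g x a i * gi g x b j * P x (ee i) (ee j) * C (ee a) (ee b) := by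
        refine Finset.sum_congr rfl fun a _ => ?_
        rw [Finset.sum_comm]
    _ = _ := by
        refine Finset.sum_congr rfl fun a _ => Finset.sum_congr rfl fun b _ => ?_
        rw [Finset.sum_mul]
        refine Finset.sum_congr rfl fun i _ => ?_
        rw [Finset.sum_mul]

theorem up_anti {n : ℕ} {g : E n → Bl n} {P : E n → Bl n} (hP : ∀ x u v, P x u v = -P x v u)
    (x : E n) (a b : Fin n) : up g P x a b = -up g P x b a := by
  unfold up
  rw [Finset.sum_comm, ← Finset.sum_neg_distrib]
  refine Finset.sum_congr rfl fun i _ => ?_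
  rw [← Finset.sum_neg_distrib]
  refine Finset.sum_congr rfl fun j _ => ?_
  rw [hP x (ee j) (ee i)]
  ring

/-- PAI. -/
theorem hPai (hShp : StShp) (hDlv : StDlv) : StPai := by
  intro n g Γ hg hΓ P hP θ hθ hdd χ hχ
  obtain ⟨-, -, hgis, -⟩ := hShp n g Γ hg hΓ
  obtain ⟨hvols, -⟩ := hDlv n g Γ hg hΓ
  have hθa : ∀ a, ContDiff ℝ ∞ fun y => θ y (ee a) := fun a => hθ.clm_apply contDiff_const
  have hU : ∀ a b, ContDiff ℝ ∞ fun y => up g P y a b := by
    intro a b
    unfold up
    refine ContDiff.sum fun i _ => ContDiff.sum fun j _ => ?_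
    exact ((hgis a i).mul (hgis b j)).mul
      ((hP.smooth.clm_apply contDiff_const).clm_apply contDiff_const)
  set h : Fin n → Fin n → E n → ℝ := fun a b y =>
    (θ y (ee a) * χ y) * (vol g y * up g P y a b) with hh
  have hhs : ∀ a b, ContDiff ℝ 1 (h a b) := fun a b =>
    (((hθa a).mul hχ.1).mul (hvols.mul (hU a b))).of_le (by simp)
  have hhc : ∀ a b, HasCompactSupport (h a b) := fun a b => (hχ.2.mul_left).mul_right
  have hhd : ∀ a b x, fderiv ℝ (h a b) x (ee b) =
      (fderiv ℝ θ x (ee b) (ee a) * χ x + θ x (ee a) * fderiv ℝ χ x (ee b)) *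
        (vol g x * up g P x a b) +
      θ x (ee a) * χ x * fderiv ℝ (fun y => vol g y * up g P y a b) x (ee b) := by
    intro a b x
    have h1 : HasFDerivAt (fun y => θ y (ee a)) (fderiv ℝ (fun y => θ y (ee a)) x) x :=
      ((hθa a).differentiable (by simp) x).hasFDerivAt
    have h1' : fderiv ℝ (fun y => θ y (ee a)) x (ee b) = fderiv ℝ θ x (ee b) (ee a) := by
      have h2 : HasFDerivAt θ (fderiv ℝ θ x) x := (hθ.differentiable (by simp) x).hasFDerivAt
      rw [(h2.clm_apply (hasFDerivAt_const (ee a) x)).fderiv]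
      simp
    have h2 : HasFDerivAt χ (fderiv ℝ χ x) x := (hχ.1.differentiable (by simp) x).hasFDerivAt
    have h3 : HasFDerivAt (fun y => vol g y * up g P y a b)
        (fderiv ℝ (fun y => vol g y * up g P y a b) x) x :=
      ((hvols.mul (hU a b)).differentiable (by simp) x).hasFDerivAt
    have h4 := ((h1.mul h2).mul h3).fderiv
    have h5 := congrArg (fun L : E n →L[ℝ] ℝ => L (ee b)) h4
    simp only [Pi.mul_apply, ContinuousLinearMap.add_apply, ContinuousLinearMap.smul_apply,
      smul_eq_mul, h1'] at h5
    refine h5.trans ?_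
    ring
  have hsum : ∀ x, ∑ a, ∑ b, fderiv ℝ (h a b) x (ee b) =
      iB g x (fun u v => P x u v) (fun u v => θ x u * fderiv ℝ χ x v) * vol g x -
        χ x * (nB g x (fun u v => P x u v) / 2) * vol g x := by
    intro x
    have hnB : nB g x (fun u v => P x u v) =
        ∑ a, ∑ b, up g P x a b * P x (ee a) (ee b) := iB_eq hg P x (fun u v => P x u v)
    have hPab : ∀ a b : Fin n, P x (ee a) (ee b) =
        fderiv ℝ θ x (ee a) (ee b) - fderiv ℝ θ x (ee b) (ee a) := fun a b => (hdd x _ _).symm
    have hnB2 : nB g x (fun u v => P x u v) =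
        -2 * ∑ a, ∑ b, up g P x a b * fderiv ℝ θ x (ee b) (ee a) := by
      rw [hnB]
      simp only [hPab, mul_sub, Finset.sum_sub_distrib]
      have h6 : ∑ a, ∑ b, up g P x a b * fderiv ℝ θ x (ee a) (ee b) =
          -∑ a, ∑ b, up g P x a b * fderiv ℝ θ x (ee b) (ee a) := by
        rw [Finset.sum_comm, ← Finset.sum_neg_distrib]
        refine Finset.sum_congr rfl fun a _ => ?_
        rw [← Finset.sum_neg_distrib]
        refine Finset.sum_congr rfl fun b _ => ?_
        rw [up_anti hP.anti x b a]
        ring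
      rw [h6]
      ring
    have hz : ∑ a, ∑ b, θ x (ee a) * χ x *
        fderiv ℝ (fun y => vol g y * up g P y a b) x (ee b) = 0 := by
      refine Finset.sum_eq_zero fun a _ => ?_
      rw [← Finset.mul_sum, hP.cocl x a, mul_zero]
    rw [iB_eq hg P x (fun u v => θ x u * fderiv ℝ χ x v), hnB2]
    simp only [hhd, Finset.sum_add_distrib]
    rw [hz, add_zero, Finset.sum_mul, Finset.mul_sum, Finset.sum_div, Finset.mul_sum,
      Finset.sum_mul, ← Finset.sum_sub_distrib]
    refine Finset.sum_congr rfl fun a _ => ?_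
    rw [Finset.sum_mul, Finset.mul_sum, Finset.sum_div, Finset.mul_sum, Finset.sum_mul,
      ← Finset.sum_sub_distrib]
    refine Finset.sum_congr rfl fun b _ => ?_
    ring
  have hχD : ContDiff ℝ ∞ (fderiv ℝ χ) := hχ.1.fderiv_right (by simp)
  have hI1 : Integrable (fun x =>
      iB g x (fun u v => P x u v) (fun u v => θ x u * fderiv ℝ χ x v) * vol g x) := by
    simp only [iB_eq hg, Finset.sum_mul]
    refine integrable_finset_sum _ fun a _ => integrable_finset_sum _ fun b _ => ?_
    refine Continuous.integrable_of_hasCompactSupport ?_ ?_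
    · exact ((hU a b).continuous.mul ((hθa a).continuous.mul
        (hχD.continuous.clm_apply continuous_const))).mul hvols.continuous
    · exact ((((hχ.2.fderiv_apply (𝕜 := ℝ) (ee b)).mul_left).mul_left).mul_right)
  have hI2 : Integrable (fun x => χ x * (nB g x (fun u v => P x u v) / 2) * vol g x) := by
    have hnB : ∀ x, nB g x (fun u v => P x u v) =
        ∑ a, ∑ b, up g P x a b * P x (ee a) (ee b) := fun x => iB_eq hg P x (fun u v => P x u v)
    have hcont : Continuous fun x => nB g x (fun u v => P x u v) := by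
      simp only [hnB]
      refine continuous_finset_sum _ fun a _ => continuous_finset_sum _ fun b _ => ?_
      exact (hU a b).continuous.mul
        ((hP.smooth.continuous.clm_apply continuous_const).clm_apply continuous_const)
    refine Continuous.integrable_of_hasCompactSupport
      ((hχ.1.continuous.mul (hcont.div_const 2)).mul hvols.continuous) ?_
    exact (hχ.2.mul_right).mul_right
  have h0 : ∫ x, ∑ a, ∑ b, fderiv ℝ (h a b) x (ee b) = 0 := by
    have hi : ∀ a b, Integrable (fun x => fderiv ℝ (h a b) x (ee b)) := fun a b =>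
      Continuous.integrable_of_hasCompactSupport
        (((hhs a b).continuous_fderiv one_ne_zero).clm_apply continuous_const)
        ((hhc a b).fderiv_apply (𝕜 := ℝ) _)
    rw [integral_finset_sum _ fun a _ => integrable_finset_sum _ fun b _ => hi a b]
    refine Finset.sum_eq_zero fun a _ => ?_
    rw [integral_finset_sum _ fun b _ => hi a b]
    exact Finset.sum_eq_zero fun b _ => pai_int _ (hhs a b) (hhc a b) _
  simp only [hsum] at h0
  rw [integral_sub hI1 hI2] at h0
  linarith

end Pool.Agent.Helper29.LH
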