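import Pool.Agent.Helper62.LH.StA

/-!
# Project LH (MP_087a81_gt), module PL: Poincare lemma for `2`-forms
-/

set_option autoImplicit false

open Set Filter Topology MeasureTheory
open scoped ContDiff

noncomputable section

namespace Pool.Agent.Helper29.LH

open Helper62.LH

/-- smoothness of a parametric integral -/
theorem par_smooth {n : ℕ} {G : E n → ℝ → ℝ}
    (hG : ContDiff ℝ ∞ (fun p : E n × ℝ => G p.1 p.2)) :
    ContDiff ℝ ∞ (fun x => ∫ t in (0 : ℝ)..1, G x t) := by
  let b : ContDiffBump (0 : ℝ) := ⟨2, 3, by norm_num, by norm_num⟩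
  let f : ℝ → ℝ := indicator (Ioc 0 1) fun _ => 1
  let g : E n → ℝ → ℝ := fun x u => b u • G x (-u)
  have hf : LocallyIntegrable f volume := by
    refine Integrable.locallyIntegrable ?_
    rw [integrable_indicator_iff measurableSet_Ioc]
    exact integrableOn_const (by simp)
  have hgs : ∀ p : E n, ∀ x, p ∈ (univ : Set (E n)) → x ∉ Metric.closedBall (0 : ℝ) 3 →
      g p x = 0 := by
    intro p x _ hx
    have : b x = 0 := by
      refine b.zero_of_le_dist ?_
      rw [Metric.mem_closedBall, not_le] at hx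
      exact hx.le
    simp only [g, this, zero_smul]
  have hg : ContDiffOn ℝ ((⊤ : ℕ∞) : WithTop ℕ∞) ↿g ((univ : Set (E n)) ×ˢ univ) := by
    refine ContDiff.contDiffOn ?_
    have h1 : ContDiff ℝ ∞ (fun p : E n × ℝ => b p.2) := b.contDiff.comp contDiff_snd
    have h2 : ContDiff ℝ ∞ (fun p : E n × ℝ => G p.1 (-p.2)) :=
      hG.comp (contDiff_fst.prodMk contDiff_snd.neg)
    exact h1.smul h2
  have key := contDiffOn_convolution_right_with_param (μ := (volume : Measure ℝ)) (n := ⊤)
    (ContinuousLinearMap.lsmul ℝ ℝ : ℝ →L[ℝ] ℝ →L[ℝ] ℝ) isOpen_univ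
    (isCompact_closedBall (0 : ℝ) 3) hgs hf hg
  rw [univ_prod_univ, contDiffOn_univ] at key
  have key2 : ContDiff ℝ ∞ (fun x : E n => (convolution f (g x)
      (ContinuousLinearMap.lsmul ℝ ℝ : ℝ →L[ℝ] ℝ →L[ℝ] ℝ) volume) (0 : ℝ)) :=
    key.comp (contDiff_id.prodMk (contDiff_const (c := (0 : ℝ))))
  convert key2 using 2 with x
  rw [intervalIntegral.integral_of_le zero_le_one, convolution_def,
    ← integral_indicator measurableSet_Ioc]
  congr 1
  funext t
  by_cases ht : t ∈ Ioc (0 : ℝ) 1
  · have hb : b (-t) = 1 := by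
      refine b.one_of_mem_closedBall ?_
      rw [Metric.mem_closedBall, dist_zero_right, norm_neg, Real.norm_of_nonneg ht.1.le]
      exact ht.2.trans (by norm_num)
    simp only [f, g, indicator_of_mem ht, ContinuousLinearMap.lsmul_apply, one_smul, zero_sub,
      neg_neg, hb]
  · simp only [f, indicator_of_notMem ht, ContinuousLinearMap.lsmul_apply, zero_smul]

/-- the derivative of a parametric integral -/
theorem par_D {n : ℕ} {G : E n → ℝ → ℝ}
    (hG : ContDiff ℝ ∞ (fun p : E n × ℝ => G p.1 p.2)) (x u : E n) :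
    fderiv ℝ (fun x => ∫ t in (0 : ℝ)..1, G x t) x u =
      ∫ t in (0 : ℝ)..1, fderiv ℝ (fun y => G y t) x u := by
  let F' : E n → ℝ → E n →L[ℝ] ℝ := fun x t =>
    (fderiv ℝ (fun p : E n × ℝ => G p.1 p.2) (x, t)).comp (ContinuousLinearMap.inl ℝ (E n) ℝ)
  have hF'c : Continuous (fun p : E n × ℝ => F' p.1 p.2) := by
    have h1 : Continuous (fderiv ℝ (fun p : E n × ℝ => G p.1 p.2)) :=
      hG.continuous_fderiv (by simp)
    exact h1.clm_comp continuous_const
  have hder : ∀ x t, HasFDerivAt (fun y => G y t) (F' x t) x := by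
    intro x t
    have h1 : HasFDerivAt (fun p : E n × ℝ => G p.1 p.2)
        (fderiv ℝ (fun p : E n × ℝ => G p.1 p.2) (x, t)) (x, t) :=
      (hG.differentiable (by simp) (x, t)).hasFDerivAt
    have h2 : HasFDerivAt (fun y : E n => (y, t)) (ContinuousLinearMap.inl ℝ (E n) ℝ) x :=
      hasFDerivAt_prodMk_left x t
    exact h1.comp x h2
  obtain ⟨M, hM⟩ := ((isCompact_closedBall x 1).prod
    (isCompact_Icc (a := (0 : ℝ)) (b := 1))).exists_bound_of_continuousOn hF'c.continuousOn
  have hsub : Set.uIoc (0 : ℝ) 1 ⊆ Icc 0 1 := by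
    rw [uIoc_of_le zero_le_one]; exact Ioc_subset_Icc_self
  have hGc : ∀ x, Continuous (G x) := fun x =>
    hG.continuous.comp (continuous_const.prodMk continuous_id)
  have hF'c' : ∀ x, Continuous (F' x) := fun x =>
    hF'c.comp (continuous_const.prodMk continuous_id)
  have key := intervalIntegral.hasFDerivAt_integral_of_dominated_of_fderiv_le
    (μ := volume) (a := (0 : ℝ)) (b := 1) (F := G) (F' := F') (x₀ := x)
    (s := Metric.closedBall x 1) (bound := fun _ => M)
    (Metric.closedBall_mem_nhds x zero_lt_one)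
    (Eventually.of_forall fun y => (hGc y).aestronglyMeasurable)
    ((hGc x).intervalIntegrable 0 1) (hF'c' x).aestronglyMeasurable
    (Eventually.of_forall fun t ht y hy => hM (y, t) ⟨hy, hsub ht⟩)
    intervalIntegrable_const
    (Eventually.of_forall fun t _ y _ => hder y t)
  rw [key.fderiv, ContinuousLinearMap.intervalIntegral_apply ((hF'c' x).intervalIntegrable 0 1)]
  congr 1
  funext t
  rw [(hder x t).fderiv]

/-- expansion of a vector -/
theorem ee_sum {n : ℕ} (v : E n) : ∑ j, v j • (ee j : E n) = v := by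
  ext i
  simp [ee, Finset.sum_apply, Pi.single_apply]

/-- PL. -/
theorem hPl : StPl := by
  intro n P hP hanti hclosed
  have hPd : Differentiable ℝ P := hP.differentiable (by simp)
  set G : E n → E n → ℝ → ℝ := fun v y t => t * P (t • y) y v with hG
  have hGs : ∀ v, ContDiff ℝ ∞ (fun p : E n × ℝ => G v p.1 p.2) := by
    intro v
    have h1 : ContDiff ℝ ∞ (fun p : E n × ℝ => P (p.2 • p.1)) :=
      hP.comp (contDiff_snd.smul contDiff_fst)
    exact contDiff_snd.mul ((h1.clm_apply contDiff_fst).clm_apply contDiff_const)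
  have hGD : ∀ (v x u : E n) (t : ℝ), fderiv ℝ (fun y => G v y t) x u =
      t * (P (t • x) u v + t * fderiv ℝ P (t • x) u x v) := by
    intro v x u t
    have h0 : HasFDerivAt (fun y : E n => t • y) (t • ContinuousLinearMap.id ℝ (E n)) x :=
      (hasFDerivAt_id x).const_smul t
    have h1 : HasFDerivAt (fun y => P (t • y))
        ((fderiv ℝ P (t • x)).comp (t • ContinuousLinearMap.id ℝ (E n))) x := by
      have hp : HasFDerivAt P (fderiv ℝ P (t • x)) (t • x) := (hPd (t • x)).hasFDerivAt
      exact HasFDerivAt.comp (G := Bl n) x hp h0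
    have h2 := h1.clm_apply (hasFDerivAt_id x)
    have h3 := h2.clm_apply (hasFDerivAt_const v x)
    have h4 := h3.const_mul t
    have h5 := congrArg (fun L : E n →L[ℝ] ℝ => L u) h4.fderiv
    rw [mul_add]
    simpa [hG] using h5
  set θ : E n → Dl n := fun x =>
    ∑ j, (∫ t in (0 : ℝ)..1, G (ee j) x t) • (EuclideanSpace.proj j : E n →L[ℝ] ℝ) with hθ
  have hθs : ContDiff ℝ ∞ θ :=
    ContDiff.sum fun j _ => (par_smooth (hGs (ee j))).smul contDiff_const
  have hGc : ∀ v x, Continuous (G v x) := fun v x =>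
    (hGs v).continuous.comp (continuous_const.prodMk continuous_id)
  have hθv : ∀ x v, θ x v = ∫ t in (0 : ℝ)..1, G v x t := by
    intro x v
    simp only [hθ]
    rw [ContinuousLinearMap.sum_apply]
    have hproj : ∀ j, (EuclideanSpace.proj j : E n →L[ℝ] ℝ) v = v j := fun j => rfl
    simp only [ContinuousLinearMap.smul_apply, hproj, smul_eq_mul]
    have h1 : ∀ t, G v x t = ∑ j, G (ee j) x t * v j := by
      intro t
      simp only [hG]
      conv_lhs => rw [← ee_sum v]
      rw [map_sum, Finset.mul_sum]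
      refine Finset.sum_congr rfl fun j _ => ?_
      rw [map_smul, smul_eq_mul]
      ring
    simp only [h1]
    have h2 : ∀ j ∈ (Finset.univ : Finset (Fin n)),
        IntervalIntegrable (fun t => G (ee j) x t * v j) volume 0 1 := fun j _ =>
      ((hGc (ee j) x).mul continuous_const).intervalIntegrable _ _
    rw [intervalIntegral.integral_finset_sum h2]
    refine Finset.sum_congr rfl fun j _ => ?_
    rw [intervalIntegral.integral_mul_const]
  have hθD : ∀ x u v, fderiv ℝ θ x u v =
      ∫ t in (0 : ℝ)..1, t * (P (t • x) u v + t * fderiv ℝ P (t • x) u x v) := by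
    intro x u v
    have h1 : HasFDerivAt θ (fderiv ℝ θ x) x :=
      (hθs.differentiable (by simp) x).hasFDerivAt
    have h2 := (h1.clm_apply (hasFDerivAt_const v x)).fderiv
    have h3 : (fun y => θ y v) = fun y => ∫ t in (0 : ℝ)..1, G v y t := funext fun y => hθv y v
    have h4 := par_D (hGs v) x u
    rw [h3] at h2
    rw [h2] at h4
    simp only [hGD] at h4
    rw [← h4]
    simp
  refine ⟨θ, hθs, fun x u v => ?_⟩
  have hPc : ∀ a b, Continuous fun t : ℝ => P (t • x) a b := fun a b =>
    ((hP.continuous.comp (continuous_id.smul continuous_const)).clm_apply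
      continuous_const).clm_apply continuous_const
  have hDc : ∀ a b c, Continuous fun t : ℝ => fderiv ℝ P (t • x) a b c := fun a b c =>
    ((((hP.continuous_fderiv (by simp)).comp (continuous_id.smul continuous_const)).clm_apply
      continuous_const).clm_apply continuous_const).clm_apply continuous_const
  have hDanti : ∀ y a b c, fderiv ℝ P y a b c = -fderiv ℝ P y a c b := by
    intro y a b c
    have h1 : HasFDerivAt P (fderiv ℝ P y) y := (hPd y).hasFDerivAt
    have h2 := ((h1.clm_apply (hasFDerivAt_const b y)).clm_apply (hasFDerivAt_const c y)).fderiv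
    have h3 := ((h1.clm_apply (hasFDerivAt_const c y)).clm_apply
      (hasFDerivAt_const b y)).neg.fderiv
    have h4 : (fun z => P z b c) = -fun z => P z c b := funext fun z => hanti z b c
    rw [h4] at h2
    rw [h2] at h3
    have h5 := congrArg (fun L : E n →L[ℝ] ℝ => L a) h3
    simpa using h5
  unfold dd
  have hi : ∀ a b : E n, IntervalIntegrable
      (fun t : ℝ => t * (P (t • x) a b + t * fderiv ℝ P (t • x) a x b)) volume 0 1 := fun a b =>
    (continuous_id.mul ((hPc a b).add (continuous_id.mul (hDc a x b)))).intervalIntegrable _ _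
  rw [hθD, hθD, ← intervalIntegral.integral_sub (hi u v) (hi v u)]
  have hint : ∀ t : ℝ, t * (P (t • x) u v + t * fderiv ℝ P (t • x) u x v) -
      t * (P (t • x) v u + t * fderiv ℝ P (t • x) v x u) =
      2 * t * P (t • x) u v + t ^ 2 * fderiv ℝ P (t • x) x u v := by
    intro t
    have h1 := hclosed (t • x) u v x
    have h2 := hDanti (t • x) u x v
    have h3 := hanti (t • x) v u
    rw [h2, h3]
    have h4 : fderiv ℝ P (t • x) x u v =
        -fderiv ℝ P (t • x) u v x - fderiv ℝ P (t • x) v x u := by linarith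
    rw [h4]
    ring
  simp only [hint]
  have hder : ∀ t ∈ uIcc (0 : ℝ) 1, HasDerivAt (fun t : ℝ => t ^ 2 * P (t • x) u v)
      (2 * t * P (t • x) u v + t ^ 2 * fderiv ℝ P (t • x) x u v) t := by
    intro t _
    have h1 : HasDerivAt (fun t : ℝ => t • x) x t := by
      simpa using (hasDerivAt_id t).smul_const x
    have h2 : HasDerivAt (fun t : ℝ => P (t • x)) (fderiv ℝ P (t • x) x) t := by
      have hp : HasFDerivAt P (fderiv ℝ P (t • x)) (t • x) := (hPd (t • x)).hasFDerivAt
      exact HasFDerivAt.comp_hasDerivAt (E := Bl n) t hp h1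
    have h3 : HasDerivAt (fun t : ℝ => P (t • x) u v) (fderiv ℝ P (t • x) x u v) t := by
      have h4 := (h2.clm_apply (hasDerivAt_const t u)).clm_apply (hasDerivAt_const t v)
      simpa using h4
    have h5 := (hasDerivAt_pow 2 t).mul h3
    have e : 2 * t * P (t • x) u v + t ^ 2 * fderiv ℝ P (t • x) x u v =
        ((2 : ℕ) : ℝ) * t ^ (2 - 1) * P (t • x) u v + t ^ 2 * fderiv ℝ P (t • x) x u v := by
      simp
    rw [e]
    exact h5
  rw [intervalIntegral.integral_eq_sub_of_hasDerivAt hder]
  · simp
  · exact (((continuous_const.mul continuous_id).mul (hPc u v)).add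
      ((continuous_pow 2).mul (hDc x u v))).intervalIntegrable _ _

end Pool.Agent.Helper29.LH
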