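import Pool.Agent.Helper62.LH.StA

/-!
# Project LH (MP_087a81_gt), module SCH: Schur bound
-/

set_option autoImplicit false

open Set Filter Topology MeasureTheory
open scoped ENNReal

noncomputable section

namespace Pool.Agent.Helper29.LH

open Helper62.LH

theorem cs_sq {α : Type} [MeasurableSpace α] (μ : Measure α) (f : α → ℝ≥0∞)
    (hf : AEMeasurable f μ) : (∫⁻ y, f y ∂μ) ^ 2 ≤ μ univ * ∫⁻ y, f y ^ 2 ∂μ := by
  have h := ENNReal.lintegral_mul_le_Lp_mul_Lq μ Real.HolderConjugate.two_two hf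
    (aemeasurable_const (b := (1 : ℝ≥0∞)))
  simp only [Pi.mul_apply, mul_one, ENNReal.rpow_two, one_pow, lintegral_const, one_mul] at h
  have h2 : (∫⁻ y, f y ∂μ) ^ 2 ≤
      ((∫⁻ y, f y ^ 2 ∂μ) ^ (1 / 2 : ℝ) * μ univ ^ (1 / 2 : ℝ)) ^ 2 := by gcongr
  refine h2.trans (le_of_eq ?_)
  have e : ∀ x : ℝ≥0∞, (x ^ (1 / 2 : ℝ)) ^ 2 = x := by
    intro x
    rw [← ENNReal.rpow_natCast, ← ENNReal.rpow_mul]
    norm_num
  rw [mul_pow, e, e, mul_comm]

/-- the case of a strongly measurable function -/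
theorem sch_meas {n : ℕ} (u : E n → ℝ) (hu : StronglyMeasurable u) (K : Set (E n))
    (hK : IsCompact K) (k : E n → E n → ℝ) (M ε : ℝ) (hε : 0 < ε) (hε1 : ε ≤ 1)
    (hk : Continuous (fun q : E n × E n => k q.1 q.2)) (hM : ∀ x ∈ K, ∀ y, |k x y| ≤ M)
    (hk0 : ∀ x y, 1 < ‖y‖ → k x y = 0) :
    StronglyMeasurable (fun x => ∫ y, k x y * u (x - ε • y)) ∧
    ∫⁻ x in K, ‖∫ y, k x y * u (x - ε • y)‖ₑ ^ 2 ≤
      ‖M‖ₑ ^ 2 * (volume (Metric.closedBall (0 : E n) 1) ^ 2 *
        ∫⁻ x in Metric.cthickening 1 K, ‖u x‖ₑ ^ 2) := by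
  set B : Set (E n) := Metric.closedBall (0 : E n) 1 with hB
  have hBm : MeasurableSet B := Metric.isClosed_closedBall.measurableSet
  have hmap : Measurable (fun q : E n × E n => q.1 - ε • q.2) := by fun_prop
  have huc : StronglyMeasurable (fun q : E n × E n => u (q.1 - ε • q.2)) :=
    hu.comp_measurable hmap
  have hT : StronglyMeasurable (fun x => ∫ y, k x y * u (x - ε • y)) := by
    have h1 : StronglyMeasurable (fun q : E n × E n => k q.1 q.2 * u (q.1 - ε • q.2)) :=
      hk.stronglyMeasurable.mul huc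
    exact h1.integral_prod_right
  refine ⟨hT, ?_⟩
  have hF : Measurable (fun q : E n × E n => ‖u (q.1 - ε • q.2)‖ₑ ^ 2) :=
    huc.measurable.enorm.pow_const 2
  have h1 : ∀ x ∈ K, ‖∫ y, k x y * u (x - ε • y)‖ₑ ^ 2 ≤
      ‖M‖ₑ ^ 2 * (volume B * ∫⁻ y in B, ‖u (x - ε • y)‖ₑ ^ 2) := by
    intro x hx
    have hmx : Measurable fun y => ‖u (x - ε • y)‖ₑ :=
      (hu.measurable.comp (by fun_prop : Measurable fun y : E n => x - ε • y)).enorm
    have h2 : ‖∫ y, k x y * u (x - ε • y)‖ₑ ≤ ‖M‖ₑ * ∫⁻ y in B, ‖u (x - ε • y)‖ₑ := by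
      refine (enorm_integral_le_lintegral_enorm _).trans ?_
      rw [← lintegral_const_mul _ hmx, ← lintegral_indicator hBm]
      refine lintegral_mono fun y => ?_
      by_cases hy : y ∈ B
      · rw [indicator_of_mem hy, enorm_mul]
        refine mul_le_mul_left ?_ _
        rw [Real.enorm_eq_ofReal_abs, Real.enorm_eq_ofReal_abs]
        exact ENNReal.ofReal_le_ofReal ((hM x hx y).trans (le_abs_self M))
      · rw [indicator_of_notMem hy]
        have hy' : 1 < ‖y‖ := by
          rw [hB, mem_closedBall_zero_iff, not_le] at hy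
          exact hy
        rw [hk0 x y hy', zero_mul, enorm_zero]
    calc ‖∫ y, k x y * u (x - ε • y)‖ₑ ^ 2 ≤ (‖M‖ₑ * ∫⁻ y in B, ‖u (x - ε • y)‖ₑ) ^ 2 := by
          gcongr
      _ = ‖M‖ₑ ^ 2 * (∫⁻ y in B, ‖u (x - ε • y)‖ₑ) ^ 2 := mul_pow _ _ _
      _ ≤ _ := by
          refine mul_le_mul_right ?_ _
          have h3 := cs_sq (volume.restrict B) (fun y => ‖u (x - ε • y)‖ₑ) hmx.aemeasurable
          rwa [Measure.restrict_apply_univ] at h3
  have h2 : ∫⁻ x in K, ∫⁻ y in B, ‖u (x - ε • y)‖ₑ ^ 2 ≤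
      volume B * ∫⁻ x in Metric.cthickening 1 K, ‖u x‖ₑ ^ 2 := by
    rw [lintegral_lintegral_swap (f := fun x y => ‖u (x - ε • y)‖ₑ ^ 2) hF.aemeasurable]
    calc ∫⁻ y in B, ∫⁻ x in K, ‖u (x - ε • y)‖ₑ ^ 2
        ≤ ∫⁻ y in B, ∫⁻ x in Metric.cthickening 1 K, ‖u x‖ₑ ^ 2 := by
          refine setLIntegral_mono measurable_const fun y hy => ?_
          rw [← lintegral_indicator hK.measurableSet,
            ← lintegral_indicator (Metric.isClosed_cthickening).measurableSet]
          have h3 := lintegral_sub_right_eq_self (μ := (volume : Measure (E n)))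
            ((Metric.cthickening 1 K).indicator fun x => ‖u x‖ₑ ^ 2) (ε • y)
          rw [← h3]
          refine lintegral_mono fun x => ?_
          by_cases hx : x ∈ K
          · have h4 : x - ε • y ∈ Metric.cthickening 1 K := by
              refine Metric.mem_cthickening_of_dist_le _ x 1 K hx ?_
              rw [dist_eq_norm, sub_sub_cancel_left, norm_neg, norm_smul, Real.norm_eq_abs,
                abs_of_pos hε]
              have h5 : ‖y‖ ≤ 1 := by
                rw [hB, mem_closedBall_zero_iff] at hy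
                exact hy
              calc ε * ‖y‖ ≤ 1 * 1 := mul_le_mul hε1 h5 (norm_nonneg _) zero_le_one
                _ = 1 := one_mul 1
            rw [indicator_of_mem hx, indicator_of_mem h4]
          · rw [indicator_of_notMem hx]
            exact bot_le
      _ = volume B * ∫⁻ x in Metric.cthickening 1 K, ‖u x‖ₑ ^ 2 := by
          rw [setLIntegral_const, mul_comm]
  have hmi : Measurable fun x => ∫⁻ y in B, ‖u (x - ε • y)‖ₑ ^ 2 :=
    hF.lintegral_prod_right'
  calc ∫⁻ x in K, ‖∫ y, k x y * u (x - ε • y)‖ₑ ^ 2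
      ≤ ∫⁻ x in K, ‖M‖ₑ ^ 2 * (volume B * ∫⁻ y in B, ‖u (x - ε • y)‖ₑ ^ 2) :=
        setLIntegral_mono (by fun_prop) h1
    _ = ‖M‖ₑ ^ 2 * (volume B * ∫⁻ x in K, ∫⁻ y in B, ‖u (x - ε • y)‖ₑ ^ 2) := by
        rw [lintegral_const_mul _ (by fun_prop), lintegral_const_mul _ hmi]
    _ ≤ ‖M‖ₑ ^ 2 * (volume B * (volume B * ∫⁻ x in Metric.cthickening 1 K, ‖u x‖ₑ ^ 2)) := by
        gcongr
    _ = _ := by
        rw [sq (volume B), mul_assoc]

/-- SCH. -/
theorem hSch : StSch := by
  intro n u hu K hK k M ε hε hε1 hk hM hk0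
  set u' : E n → ℝ := hu.1.mk u with hu'
  have hae : u =ᵐ[volume] u' := hu.1.ae_eq_mk
  have hTe : ∀ x, ∫ y, k x y * u (x - ε • y) = ∫ y, k x y * u' (x - ε • y) := by
    intro x
    refine integral_congr_ae ?_
    have hq : Measure.QuasiMeasurePreserving (fun y : E n => x - ε • y) volume volume :=
      (quasiMeasurePreserving_sub_left volume x).comp
        (Measure.quasiMeasurePreserving_smul volume hε.ne')
    filter_upwards [hq.ae hae] with y hy
    rw [hy]
  obtain ⟨hTm, hle⟩ := sch_meas u' hu.1.stronglyMeasurable_mk K hK k M ε hε hε1 hk hM hk0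
  simp only [hTe]
  set T : E n → ℝ := fun x => ∫ y, k x y * u' (x - ε • y) with hT
  have hK1 : IsCompact (Metric.cthickening 1 K) := hK.cthickening
  have hint : IntegrableOn (fun x => u x ^ 2) (Metric.cthickening 1 K) := hu.2 _ hK1
  have hI : ∫⁻ x in Metric.cthickening 1 K, ‖u' x‖ₑ ^ 2 =
      ENNReal.ofReal (∫ x in Metric.cthickening 1 K, u x ^ 2) := by
    rw [ofReal_integral_eq_lintegral_ofReal hint (Filter.Eventually.of_forall fun x => sq_nonneg _)]
    refine lintegral_congr_ae ?_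
    filter_upwards [ae_restrict_of_ae hae] with x hx
    rw [hx, ← enorm_pow, Real.enorm_of_nonneg (sq_nonneg _)]
  have hb : volume (Metric.closedBall (0 : E n) 1) =
      ENNReal.ofReal (volume.real (Metric.closedBall (0 : E n) 1)) := by
    rw [Measure.real, ENNReal.ofReal_toReal]
    exact (isCompact_closedBall (0 : E n) 1).measure_lt_top.ne
  have hI0 : 0 ≤ ∫ x in Metric.cthickening 1 K, u x ^ 2 :=
    integral_nonneg fun x => sq_nonneg _
  have hR : ‖M‖ₑ ^ 2 * (volume (Metric.closedBall (0 : E n) 1) ^ 2 *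
        ∫⁻ x in Metric.cthickening 1 K, ‖u' x‖ₑ ^ 2) =
      ENNReal.ofReal (M ^ 2 * volume.real (Metric.closedBall (0 : E n) 1) ^ 2 *
        ∫ x in Metric.cthickening 1 K, u x ^ 2) := by
    rw [hI, hb, ← ENNReal.ofReal_pow measureReal_nonneg, ← enorm_pow,
      Real.enorm_of_nonneg (sq_nonneg _), ← ENNReal.ofReal_mul (by positivity),
      ← ENNReal.ofReal_mul (by positivity), mul_assoc]
  rw [hR] at hle
  have hTint : IntegrableOn (fun x => T x ^ 2) K := by
    refine ⟨(hTm.pow 2).aestronglyMeasurable, ?_⟩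
    rw [hasFiniteIntegral_iff_enorm]
    simp only [enorm_pow]
    exact lt_of_le_of_lt hle ENNReal.ofReal_lt_top
  refine ⟨hTint, ?_⟩
  rw [integral_eq_lintegral_of_nonneg_ae (Filter.Eventually.of_forall fun x => sq_nonneg _)
    hTint.1]
  refine ENNReal.toReal_le_of_le_ofReal (by positivity) (le_trans (le_of_eq ?_) hle)
  refine lintegral_congr fun x => ?_
  rw [← enorm_pow, Real.enorm_of_nonneg (sq_nonneg _)]

end Pool.Agent.Helper29.LH
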