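import Pool.Agent.Helper62.LH.StV

/-!
# Project LH (MP_087a81_gt), module USC: measurability of `HS`
-/

set_option autoImplicit false

open Set Filter Topology MeasureTheory
open scoped ENNReal

noncomputable section

namespace Pool.Agent.Helper29.LH

open Helper62.LH

/-- USC. -/
theorem hUsc (hMet : StMet) (hDlc : StDlc) (hHr : StHr) : StUsc := by
  intro n g hg hC h hh
  obtain ⟨-, -, hd0, -, hsymm, htri⟩ := hMet n g hg
  obtain ⟨-, -, hdc⟩ := hDlc n g hg
  have hcpt := hHr n g hg hC
  have hGc : ∀ t x y, IsCompact (Gt g t x y) := by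
    intro t x y
    refine (hcpt x (t * dg g x y)).of_isClosed_subset ?_ (fun z hz => hz.1.le)
    have h1 : Continuous fun z => dg g x z :=
      hdc.comp (by fun_prop : Continuous fun z : E n => (x, z))
    have h2 : Continuous fun z => dg g z y :=
      hdc.comp (by fun_prop : Continuous fun z : E n => (z, y))
    exact (isClosed_eq h1 continuous_const).inter (isClosed_eq h2 continuous_const)
  have hatt : ∀ t x y, HS g h t x y = 0 ∨
      ∃ z ∈ Gt g t x y, HS g h t x y = ENNReal.ofReal (h z) := by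
    intro t x y
    rcases (Gt g t x y).eq_empty_or_nonempty with he | hne
    · left
      simp [HS, he]
    · obtain ⟨z, hz, hmax⟩ := (hGc t x y).exists_isMaxOn hne hh.continuousOn
      right
      refine ⟨z, hz, le_antisymm ?_ ?_⟩
      · exact iSup₂_le fun w hw => ENNReal.ofReal_le_ofReal (hmax hw)
      · exact le_iSup₂ (f := fun z (_ : z ∈ Gt g t x y) => ENNReal.ofReal (h z)) z hz
  refine ⟨measurable_of_Ici fun s => ?_, ?_⟩
  · rcases eq_or_ne s 0 with rfl | hs
    · have : (fun q : ℝ × E n × E n => HS g h q.1 q.2.1 q.2.2) ⁻¹' Ici 0 = univ := by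
        ext q
        simp
      rw [this]
      exact MeasurableSet.univ
    · refine IsClosed.measurableSet (IsSeqClosed.isClosed ?_)
      intro q q₀ hq hlim
      have hz : ∀ k, ∃ z, z ∈ Gt g (q k).1 (q k).2.1 (q k).2.2 ∧ s ≤ ENNReal.ofReal (h z) := by
        intro k
        have h1 : s ≤ HS g h (q k).1 (q k).2.1 (q k).2.2 := hq k
        rcases hatt (q k).1 (q k).2.1 (q k).2.2 with h0 | ⟨z, hz, he⟩
        · rw [h0] at h1
          exact absurd (le_antisymm h1 bot_le) hs
        · rw [he] at h1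
          exact ⟨z, hz, h1⟩
      choose z hz hsz using hz
      have hT : Tendsto (fun k => (q k).1) atTop (𝓝 q₀.1) :=
        (continuous_fst.tendsto q₀).comp hlim
      have hX : Tendsto (fun k => (q k).2.1) atTop (𝓝 q₀.2.1) :=
        ((continuous_fst.comp continuous_snd).tendsto q₀).comp hlim
      have hY : Tendsto (fun k => (q k).2.2) atTop (𝓝 q₀.2.2) :=
        ((continuous_snd.comp continuous_snd).tendsto q₀).comp hlim
      have hdd : ∀ (a b : ℕ → E n) (a₀ b₀ : E n), Tendsto a atTop (𝓝 a₀) →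
          Tendsto b atTop (𝓝 b₀) → Tendsto (fun k => dg g (a k) (b k)) atTop
            (𝓝 (dg g a₀ b₀)) := by
        intro a b a₀ b₀ ha hb
        exact (hdc.tendsto (a₀, b₀)).comp (ha.prodMk_nhds hb)
      obtain ⟨C, hC'⟩ : ∃ C, ∀ k, dg g q₀.2.1 (z k) ≤ C := by
        have h1 := (hdd (fun _ => q₀.2.1) (fun k => (q k).2.1) _ _ tendsto_const_nhds hX).add
          (hT.mul (hdd _ _ _ _ hX hY))
        obtain ⟨C, hC⟩ := h1.bddAbove_range
        refine ⟨C, fun k => ?_⟩
        have h2 := hC ⟨k, rfl⟩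
        refine (htri _ (q k).2.1 _).trans ?_
        rw [(hz k).1]
        exact h2
      obtain ⟨z₀, -, φ, hφ, hzlim⟩ := (hcpt q₀.2.1 C).tendsto_subseq hC'
      have hT' := hT.comp hφ.tendsto_atTop
      have hX' := hX.comp hφ.tendsto_atTop
      have hY' := hY.comp hφ.tendsto_atTop
      have hmem : z₀ ∈ Gt g q₀.1 q₀.2.1 q₀.2.2 := by
        constructor
        · refine tendsto_nhds_unique (hdd _ _ _ _ hX' hzlim)
            ((hT'.mul (hdd _ _ _ _ hX' hY')).congr fun k => ?_)
          exact ((hz (φ k)).1).symm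
        · refine tendsto_nhds_unique (hdd _ _ _ _ hzlim hY')
            (((tendsto_const_nhds.sub hT').mul (hdd _ _ _ _ hX' hY')).congr fun k => ?_)
          exact ((hz (φ k)).2).symm
      have hle : s ≤ ENNReal.ofReal (h z₀) := by
        have h1 : Tendsto (fun k => ENNReal.ofReal (h ((z ∘ φ) k))) atTop
            (𝓝 (ENNReal.ofReal (h z₀))) :=
          ((ENNReal.continuous_ofReal.comp hh).tendsto z₀).comp hzlim
        exact ge_of_tendsto' h1 fun k => hsz (φ k)
      exact hle.trans
        (le_iSup₂ (f := fun z (_ : z ∈ Gt g q₀.1 q₀.2.1 q₀.2.2) => ENNReal.ofReal (h z)) z₀ hmem)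
  · intro t x y
    rcases hatt t x y with h0 | ⟨z, -, he⟩
    · rw [h0]
      exact ENNReal.zero_ne_top
    · rw [he]
      exact ENNReal.ofReal_ne_top

end Pool.Agent.Helper29.LH
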